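import Pool.Agent.GLFix.Final

/-!
# MP_ce340f_al: fixed vectors under word measures on `GL_N(K)`, `K` a finite field

For every word `w` of a free group with finite `q`-primitivity rank `k ≥ 1`, the expected number
of vectors fixed by a `w`-random element of `GL_N(K)` is
`2 + |Crit_q(w)| / q^(N (k - 1)) + O(1 / q^(N k))`.
-/

open Filter Asymptotics Pool.Agent.GLFix

theorem Pool.Agent.Results.MP_ce340f_al.FixedVectors.result (K : Type) [Field K] [Finite K]
    (r : ℕ) (w : FreeGroup (Fin r)) (k : ℕ) (hk : IsPiq K w k) (hk1 : 1 ≤ k) :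
    (Crit K w k).Finite ∧
      (fun N : ℕ => expFix K w N - 2 -
          ((Crit K w k).ncard : ℝ) / (Nat.card K : ℝ) ^ (N * (k - 1)))
        =O[atTop] fun N : ℕ => 1 / (Nat.card K : ℝ) ^ (N * k) :=
  ⟨final_crit_finite w k hk hk1, final w k hk hk1⟩
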